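import Pool.Agent.Lib.MP_a6415b_co.Defs
import Pool.Agent.Lib.MP_a6415b_co.Game

set_option autoImplicit false

/-!
# The online token colouring game has no uniform linear bound

For every real `c` there is a finite graph `G` with `f(w, G) > c w` for all `w ≥ 2`.  Hence there is no
constant `c` such that `f(w, G) ≤ (c + o(1)) w` for every finite graph `G` (Q1 is answered in the
negative).  The definitions of the game (`tokenGraph`, `Legal`, `colourOf`, `Guarantees`, `value`) are in
`Pool.Agent.Lib.MP_a6415b_co.Defs`.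
-/

namespace Pool.Agent.Results.MP_a6415b_co.Unbounded

open Pool.Agent.Lib.MP_a6415b_co

/-- For every real `c` there is a finite graph `G` such that the value `f(w, G)` of the token colouring
game is larger than `c w` for every `w ≥ 2`. -/
theorem result : ∀ c : ℝ, ∃ (V : Type) (_ : Fintype V) (G : SimpleGraph V),
    ∀ w : ℕ, 2 ≤ w → c * w < value w G := by
  intro c
  obtain ⟨k, hk⟩ := exists_nat_gt (6 * c)
  refine ⟨Fin (2 ^ k + 1) × Finset (Fin (2 ^ k + 1)), inferInstance, spoilerGraph (2 ^ k + 1), ?_⟩
  intro w hw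
  obtain ⟨σ, hσ⟩ := value_mem w (spoilerGraph (2 ^ k + 1))
  have h1 := guarantees_lower σ hσ
  generalize value w (spoilerGraph (2 ^ k + 1)) = N at h1 ⊢
  have h2 : w ≤ 3 * (w / 2) := by omega
  have h3 : k * w ≤ 6 * N := by
    calc k * w ≤ k * (3 * (w / 2)) := Nat.mul_le_mul_left _ h2
      _ = 3 * (k * (w / 2)) := by ring
      _ ≤ 3 * (2 * N) := Nat.mul_le_mul_left _ h1
      _ = 6 * N := by ring
  have h4 : (k : ℝ) * w ≤ 6 * N := by exact_mod_cast h3
  have hw' : (0 : ℝ) < w := by exact_mod_cast (by omega : 0 < w)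
  have h5 : 6 * c * w < k * w := mul_lt_mul_of_pos_right hk hw'
  linarith

end Pool.Agent.Results.MP_a6415b_co.Unbounded
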